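import Mathlib

/-! Consequences of the exact formula, second kind: the elementary part. -/

set_option autoImplicit false

namespace Pool.Agent.H734.EX

open Finset

lemma J_abs (a : ℤ) (b : ℕ) : |jacobiSym a b| ≤ 1 := by
  rcases jacobiSym.trichotomy a b with h | h | h <;> rw [h] <;> simp

lemma abs_J_mul (a : ℤ) (b : ℕ) {x : ℤ} (hx : 0 ≤ x) : |jacobiSym a b * x| ≤ x := by
  rw [abs_mul, abs_of_nonneg hx]
  exact mul_le_of_le_one_left hx (J_abs a b)

/-- the left side -/
def LH (Q : ℤ) (p : ℕ → ℕ) (n : ℕ) : ℤ :=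
  ∑ m ∈ n.divisors with n / m % 4 = 1, (4 * m : ℤ) * (p m : ℤ) *
      ∑ d ∈ (n / m).divisors, jacobiSym (-1) d * Q ^ (m * ((d - 1) * (n / m / d - 1)))

/-- the right side -/
def RH (Q : ℤ) (n : ℕ) : ℤ :=
  2 * Q ^ n * ∑ c ∈ n.divisors, jacobiSym (-1) (n / c) * (Q ^ c - 1)

lemma inner_self (Q : ℤ) {n : ℕ} (hn : 0 < n) :
    ∑ d ∈ (n / n).divisors, jacobiSym (-1) d * Q ^ (n * ((d - 1) * (n / n / d - 1))) = 1 := by
  rw [Nat.div_self hn, Nat.divisors_one, sum_singleton, jacobiSym.one_right, Nat.sub_self, zero_mul,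
    mul_zero, pow_zero, one_mul]

lemma inner_prime (Q : ℤ) {n : ℕ} (hP : n.Prime) (h1 : n % 4 = 1) :
    ∑ d ∈ (n / 1).divisors, jacobiSym (-1) d * Q ^ (1 * ((d - 1) * (n / 1 / d - 1))) = 2 := by
  have hodd : Odd n := Nat.odd_iff.2 (by omega)
  rw [Nat.div_one, hP.divisors, sum_pair hP.ne_one.symm, jacobiSym.one_right,
    jacobiSym.at_neg_one hodd, ZMod.χ₄_nat_one_mod_four h1, Nat.div_self hP.pos]
  simp only [Nat.sub_self, zero_mul, mul_zero, pow_zero, mul_one]
  norm_num

lemma RH_prime (Q : ℤ) {n : ℕ} (hP : n.Prime) :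
    RH Q n = 2 * Q ^ n * (jacobiSym (-1) n * (Q - 1) + (Q ^ n - 1)) := by
  unfold RH
  rw [hP.divisors, sum_pair hP.ne_one.symm, Nat.div_one, Nat.div_self hP.pos, jacobiSym.one_right,
    pow_one, one_mul]

lemma case_one (Q : ℤ) (p : ℕ → ℕ) (h : LH Q p 1 = RH Q 1) : 4 * (p 1 : ℤ) = 2 * Q * (Q - 1) := by
  have hfil : (Nat.divisors 1).filter (fun m => 1 / m % 4 = 1) = {1} := by
    rw [Nat.divisors_one]
    apply filter_true_of_mem
    intro m hm
    rw [mem_singleton] at hm
    rw [hm]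
  unfold LH RH at h
  rw [hfil, sum_singleton, inner_self Q one_pos, Nat.divisors_one, sum_singleton, Nat.div_self one_pos,
    jacobiSym.one_right] at h
  push_cast at h
  linear_combination h

lemma case_three (Q : ℤ) (p : ℕ → ℕ) {n : ℕ} (hP : n.Prime) (h3 : n % 4 = 3)
    (h : LH Q p n = RH Q n) : (4 * n : ℤ) * p n = 2 * Q ^ n * (Q ^ n - Q) := by
  have hn : 0 < n := hP.pos
  have hodd : Odd n := Nat.odd_iff.2 (by omega)
  have hfil : n.divisors.filter (fun m => n / m % 4 = 1) = {n} := by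
    rw [hP.divisors]
    ext m
    rw [mem_filter, mem_insert, mem_singleton]
    constructor
    · rintro ⟨h1 | h1, h2⟩
      · rw [h1, Nat.div_one] at h2
        omega
      · exact h1
    · intro h1
      refine ⟨Or.inr h1, ?_⟩
      rw [h1, Nat.div_self hn]
  rw [RH_prime Q hP, jacobiSym.at_neg_one hodd, ZMod.χ₄_nat_three_mod_four h3] at h
  unfold LH at h
  rw [hfil, sum_singleton, inner_self Q hn] at h
  linear_combination h

lemma case_four (Q : ℤ) (p : ℕ → ℕ) {n : ℕ} (hP : n.Prime) (h1 : n % 4 = 1)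
    (h : LH Q p n = RH Q n) (h' : LH Q p 1 = RH Q 1) :
    (4 * n : ℤ) * p n = 2 * Q ^ n * (Q ^ n + Q - 2) - 4 * Q * (Q - 1) := by
  have hn : 0 < n := hP.pos
  have hodd : Odd n := Nat.odd_iff.2 (by omega)
  have hfil : n.divisors.filter (fun m => n / m % 4 = 1) = {1, n} := by
    rw [hP.divisors]
    apply filter_true_of_mem
    intro m hm
    rw [mem_insert, mem_singleton] at hm
    rcases hm with hm | hm
    · rw [hm, Nat.div_one]
      exact h1
    · rw [hm, Nat.div_self hn]
  have h2 := case_one Q p h'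
  rw [RH_prime Q hP, jacobiSym.at_neg_one hodd, ZMod.χ₄_nat_one_mod_four h1] at h
  unfold LH at h
  rw [hfil, sum_pair hP.ne_one.symm, inner_self Q hn, inner_prime Q hP h1] at h
  push_cast at h
  linear_combination h - 2 * h2

/-- a proper divisor of an odd number -/
lemma div_three {n c : ℕ} (hn : Odd n) (hc : c ∣ n) (h : c ≠ n) : c ≤ n / 3 := by
  obtain ⟨k, hk⟩ := hc
  have hn2 := Nat.odd_iff.1 hn
  have h1 : k ≠ 1 := by
    rintro rfl
    rw [mul_one] at hk
    exact h hk.symm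
  have h0 : k ≠ 0 := by
    rintro rfl
    rw [mul_zero] at hk
    omega
  have h2 : k ≠ 2 := by
    rintro rfl
    omega
  have h3 : c * 3 ≤ c * k := Nat.mul_le_mul_left _ (by omega)
  omega

/-- the exponents on the left -/
lemma expL {n m d : ℕ} (hn : 0 < n) (hm : m ∣ n) (h1 : n / m % 4 = 1) (h2 : m ≠ n)
    (hd : d ∣ n / m) : 2 * m + m * ((d - 1) * (n / m / d - 1)) ≤ n := by
  obtain ⟨M, hM⟩ := hm
  have hm0 : 0 < m := by
    rcases Nat.eq_zero_or_pos m with h | h
    · rw [h, zero_mul] at hM; omega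
    · exact h
  have hq : n / m = M := by
    rw [hM]
    exact Nat.mul_div_cancel_left M hm0
  rw [hq] at h1 hd ⊢
  have hM1 : M ≠ 1 := by
    rintro rfl
    rw [mul_one] at hM
    exact h2 hM.symm
  obtain ⟨e, he⟩ := hd
  have hd0 : 0 < d := by
    rcases Nat.eq_zero_or_pos d with h | h
    · rw [h, zero_mul] at he; omega
    · exact h
  have he0 : 0 < e := by
    rcases Nat.eq_zero_or_pos e with h | h
    · rw [h, mul_zero] at he; omega
    · exact h
  have hq2 : M / d = e := by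
    rw [he]
    exact Nat.mul_div_cancel_left e hd0
  rw [hq2]
  obtain ⟨x, rfl⟩ : ∃ x, d = x + 1 := ⟨d - 1, by omega⟩
  obtain ⟨y, rfl⟩ : ∃ y, e = y + 1 := ⟨e - 1, by omega⟩
  rw [Nat.add_sub_cancel, Nat.add_sub_cancel]
  have h5 : M = x * y + x + y + 1 := by rw [he]; ring
  have h6 : 1 ≤ x + y := by
    by_contra h
    have hx : x = 0 := by omega
    have hy : y = 0 := by omega
    rw [hx, hy] at h5
    exact hM1 h5
  calc 2 * m + m * (x * y) = m * (x * y + 2) := by ring
    _ ≤ m * M := Nat.mul_le_mul_left _ (by omega)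
    _ = n := hM.symm

/-- the general bound, in integers -/
lemma bound (Q : ℤ) (hQ1 : 1 ≤ Q) (p : ℕ → ℕ) (hp : ∀ m, (p m : ℤ) ≤ Q ^ (2 * m)) {n : ℕ}
    (hn : Odd n) (h : LH Q p n = RH Q n) :
    |(4 * n * p n : ℤ) - 2 * Q ^ (2 * n)| ≤ 2 * (4 * n) ^ 3 * Q ^ ((4 * n + 3) / 3) := by
  have hn2 := Nat.odd_iff.1 hn
  have hn0 : 0 < n := by omega
  have hQ0 : 0 < Q := by linarith
  have hnc : (1 : ℤ) ≤ n := by exact_mod_cast hn0
  obtain ⟨B, hB⟩ : ∃ B : ℤ, B = Q ^ ((4 * n + 3) / 3) := ⟨_, rfl⟩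
  have hB0 : 0 < B := by
    rw [hB]
    positivity
  rw [← hB]
  have hself : n ∈ n.divisors := Nat.mem_divisors_self _ hn0.ne'
  -- the right side
  have hR : |RH Q n - 2 * Q ^ (2 * n)| ≤ 2 * n * B := by
    unfold RH
    rw [← Finset.add_sum_erase _ _ hself, Nat.div_self hn0, jacobiSym.one_right, one_mul]
    set S : ℤ := ∑ c ∈ n.divisors.erase n, jacobiSym (-1) (n / c) * (Q ^ c - 1) with hS
    have hSb : |S| ≤ (n - 1) * Q ^ (n / 3) := by
      rw [hS]
      refine (Finset.abs_sum_le_sum_abs _ _).trans ?_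
      have h1 : ∀ c ∈ n.divisors.erase n, |jacobiSym (-1) (n / c) * (Q ^ c - 1)| ≤ Q ^ (n / 3) := by
        intro c hc
        rw [Finset.mem_erase, Nat.mem_divisors] at hc
        have h2 : 1 ≤ Q ^ c := one_le_pow₀ hQ1
        refine (abs_J_mul _ _ (by linarith)).trans ?_
        have h3 : Q ^ c ≤ Q ^ (n / 3) := pow_le_pow_right₀ hQ1 (div_three hn hc.2.1 hc.1)
        linarith
      refine (Finset.sum_le_card_nsmul _ _ _ h1).trans ?_
      rw [nsmul_eq_mul]
      refine mul_le_mul_of_nonneg_right ?_ (by positivity)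
      rw [Finset.card_erase_of_mem hself]
      have h2 := Nat.card_divisors_le_self n
      have h3 : 0 < n.divisors.card := Finset.card_pos.2 ⟨n, hself⟩
      have h4 : ((n.divisors.card - 1 : ℕ) : ℤ) = (n.divisors.card : ℤ) - 1 := by
        rw [Nat.cast_sub h3]
        rfl
      rw [h4]
      have h5 : (n.divisors.card : ℤ) ≤ n := by exact_mod_cast h2
      linarith
    have h1 : 2 * Q ^ n * (Q ^ n - 1 + S) - 2 * Q ^ (2 * n) = 2 * Q ^ n * (S - 1) := by
      rw [two_mul n, pow_add]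
      ring
    rw [h1, abs_mul, abs_of_nonneg (by positivity)]
    have h2 : |S - 1| ≤ n * Q ^ (n / 3) := by
      have h3 : 1 ≤ Q ^ (n / 3) := one_le_pow₀ hQ1
      have h4 := abs_le.1 hSb
      rw [abs_le]
      constructor
      · linarith [h4.1]
      · linarith [h4.2]
    calc 2 * Q ^ n * |S - 1| ≤ 2 * Q ^ n * (n * Q ^ (n / 3)) :=
          mul_le_mul_of_nonneg_left h2 (by positivity)
      _ = 2 * n * Q ^ (n + n / 3) := by rw [pow_add]; ring
      _ ≤ 2 * n * B := by
          refine mul_le_mul_of_nonneg_left ?_ (by positivity)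
          rw [hB]
          exact pow_le_pow_right₀ hQ1 (by omega)
  -- the left side
  have hL : |LH Q p n - 4 * n * p n| ≤ 4 * n ^ 3 * B := by
    have hself' : n ∈ n.divisors.filter (fun m => n / m % 4 = 1) :=
      Finset.mem_filter.2 ⟨hself, by rw [Nat.div_self hn0]⟩
    unfold LH
    rw [← Finset.add_sum_erase _ _ hself', inner_self Q hn0, mul_one, add_sub_cancel_left]
    refine (Finset.abs_sum_le_sum_abs _ _).trans ?_
    have h1 : ∀ m ∈ (n.divisors.filter (fun m => n / m % 4 = 1)).erase n,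
        |(4 * m : ℤ) * (p m : ℤ) * ∑ d ∈ (n / m).divisors, jacobiSym (-1) d *
          Q ^ (m * ((d - 1) * (n / m / d - 1)))| ≤ 4 * n ^ 2 * B := by
      intro m hm
      rw [Finset.mem_erase, Finset.mem_filter, Nat.mem_divisors] at hm
      obtain ⟨hm1, ⟨hm2, -⟩, hm3⟩ := hm
      have hmn : m ≤ n := Nat.le_of_dvd hn0 hm2
      rw [abs_mul, abs_of_nonneg (by positivity)]
      have h2 : |∑ d ∈ (n / m).divisors, jacobiSym (-1) d *
          Q ^ (m * ((d - 1) * (n / m / d - 1)))| ≤
          ∑ d ∈ (n / m).divisors, Q ^ (m * ((d - 1) * (n / m / d - 1))) :=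
        (Finset.abs_sum_le_sum_abs _ _).trans
          (Finset.sum_le_sum fun d _ => abs_J_mul _ _ (by positivity))
      have h3 : (p m : ℤ) * ∑ d ∈ (n / m).divisors, Q ^ (m * ((d - 1) * (n / m / d - 1))) ≤
          n * B := by
        calc (p m : ℤ) * ∑ d ∈ (n / m).divisors, Q ^ (m * ((d - 1) * (n / m / d - 1)))
            ≤ Q ^ (2 * m) * ∑ d ∈ (n / m).divisors, Q ^ (m * ((d - 1) * (n / m / d - 1))) := by
              refine mul_le_mul_of_nonneg_right (hp m) (Finset.sum_nonneg fun d _ => ?_)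
              positivity
          _ = ∑ d ∈ (n / m).divisors, Q ^ (2 * m + m * ((d - 1) * (n / m / d - 1))) := by
              rw [Finset.mul_sum]
              exact Finset.sum_congr rfl fun d _ => (pow_add _ _ _).symm
          _ ≤ ∑ d ∈ (n / m).divisors, B := by
              refine Finset.sum_le_sum fun d hd => ?_
              rw [hB]
              refine pow_le_pow_right₀ hQ1
                ((expL hn0 hm2 hm3 hm1 (Nat.dvd_of_mem_divisors hd)).trans ?_)
              omega
          _ = ((n / m).divisors.card : ℤ) * B := by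
              rw [Finset.sum_const, nsmul_eq_mul]
          _ ≤ n * B := by
              refine mul_le_mul_of_nonneg_right ?_ hB0.le
              have h2 : (n / m).divisors.card ≤ n :=
                (Nat.card_divisors_le_self _).trans (Nat.div_le_self _ _)
              exact_mod_cast h2
      have hmc : (m : ℤ) ≤ n := by exact_mod_cast hmn
      calc (4 * m : ℤ) * (p m : ℤ) * |∑ d ∈ (n / m).divisors, jacobiSym (-1) d *
          Q ^ (m * ((d - 1) * (n / m / d - 1)))|
          ≤ (4 * m : ℤ) * (p m : ℤ) *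
            ∑ d ∈ (n / m).divisors, Q ^ (m * ((d - 1) * (n / m / d - 1))) :=
            mul_le_mul_of_nonneg_left h2 (by positivity)
        _ = (4 * m : ℤ) * ((p m : ℤ) *
            ∑ d ∈ (n / m).divisors, Q ^ (m * ((d - 1) * (n / m / d - 1)))) := by ring
        _ ≤ (4 * m : ℤ) * (n * B) := mul_le_mul_of_nonneg_left h3 (by positivity)
        _ ≤ (4 * n : ℤ) * (n * B) := mul_le_mul_of_nonneg_right (by linarith) (by positivity)
        _ = 4 * n ^ 2 * B := by ring
    refine (Finset.sum_le_card_nsmul _ _ _ h1).trans ?_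
    rw [nsmul_eq_mul]
    have h2 : ((n.divisors.filter (fun m => n / m % 4 = 1)).erase n).card ≤ n :=
      (Finset.card_le_card ((Finset.erase_subset _ _).trans (Finset.filter_subset _ _))).trans
        (Nat.card_divisors_le_self _)
    have h3 : (((n.divisors.filter (fun m => n / m % 4 = 1)).erase n).card : ℤ) ≤ n := by
      exact_mod_cast h2
    calc _ ≤ (n : ℤ) * (4 * n ^ 2 * B) := mul_le_mul_of_nonneg_right h3 (by positivity)
      _ = _ := by ring
  rw [h] at hL
  have h5 : (n : ℤ) * B ≤ n ^ 3 * B := by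
    refine mul_le_mul_of_nonneg_right ?_ hB0.le
    exact le_self_pow₀ hnc (by norm_num)
  have h6 := abs_le.1 hL
  have h7 := abs_le.1 hR
  have h8 : 0 < (n : ℤ) ^ 3 * B := by positivity
  have h9 : 2 * (4 * (n : ℤ)) ^ 3 * B = 128 * (n ^ 3 * B) := by ring
  have h10 : 4 * (n : ℤ) ^ 3 * B = 4 * (n ^ 3 * B) := by ring
  have h11 : 2 * (n : ℤ) * B = 2 * (n * B) := by ring
  rw [h10] at h6
  rw [h11] at h7
  rw [h9, abs_le]
  constructor
  · linarith [h6.1, h6.2, h7.1, h7.2]
  · linarith [h6.1, h6.2, h7.1, h7.2]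

end Pool.Agent.H734.EX
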