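import Pool.Agent.H525.EX.Stm4
import Pool.Agent.H734.EX.BD2C

/-! `S_bd2`: consequences of the exact formula, second kind. -/

set_option autoImplicit false

namespace Pool.Agent.H734.EX

open Pool.Agent.H525.EX

theorem ident_eq (κ : ℕ) (p : ℕ → ℕ) (n : ℕ) (h : Ident2 κ p n) :
    LH ((2 : ℤ) ^ κ) p n = RH ((2 : ℤ) ^ κ) n := h

theorem t_bd2 : S_bd2 := by
  intro κ p _ hp hI n hn
  have hQ1 : (1 : ℤ) ≤ 2 ^ κ := one_le_pow₀ (by norm_num)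
  have h := ident_eq κ p n (hI n hn)
  have h' := ident_eq κ p 1 (hI 1 odd_one)
  refine ⟨fun hP h3 => case_three _ p hP h3 h, fun hP h1 => case_four _ p hP h1 h h', ?_⟩
  have hb := bound ((2 : ℤ) ^ κ) hQ1 p (fun m => by exact_mod_cast hp m) hn h
  have hc : ((|(4 * n * p n : ℤ) - 2 * ((2 : ℤ) ^ κ) ^ (2 * n)| : ℤ) : ℝ) ≤
      ((2 * (4 * n) ^ 3 * ((2 : ℤ) ^ κ) ^ ((4 * n + 3) / 3) : ℤ) : ℝ) := by
    exact_mod_cast hb
  rw [Int.cast_abs] at hc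
  push_cast at hc
  exact hc

end Pool.Agent.H734.EX
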