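import Pool.Agent.H525.EX.Stm5

/-!
# LV1: the next level of the array equations
-/

set_option autoImplicit false

namespace Pool.Agent.H734.EX

open Pool.Agent.H525.EX

namespace LV1

/-- the conditions which do not depend on the level -/
structure Ok (ε : ℝ) (f : Arr) : Prop where
  fn : ∀ N E : ℤ, N < 0 → f N E = 0
  fs : ∀ N E : ℤ, E < -N → f N E = 0
  fp : ∀ N E : ℤ, (N + E) % 2 = 1 → f N E = 0
  tau : ∀ N E : ℤ, f (2 * N - E) (3 * N - 2 * E) = ε ^ ((E - N) / 2) * f N E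

/-- `(1 - h x^s)⁻¹ u`, with diagonal shifts -/
noncomputable def Inv (h : ℝ) (s : ℤ) (u : Arr) : Arr := fun N E =>
  ∑' a : ℕ, h ^ a * u (N - s * a) (E - s * a)

theorem term_zero {u : Arr} (hu : ∀ N E : ℤ, N < 0 → u N E = 0) {s : ℤ} (hs : 1 ≤ s) (h : ℝ)
    (N E : ℤ) (a : ℕ) (ha : a ∉ Finset.range (N.toNat + 1)) :
    h ^ a * u (N - s * a) (E - s * a) = 0 := by
  rw [Finset.mem_range, not_lt] at ha
  have h1 : (N.toNat : ℤ) + 1 ≤ a := by exact_mod_cast ha
  have h2 : N ≤ N.toNat := Int.self_le_toNat N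
  have h3 : (a : ℤ) ≤ s * a := le_mul_of_one_le_left (Int.natCast_nonneg a) hs
  rw [hu _ _ (by linarith), mul_zero]

theorem summ {u : Arr} (hu : ∀ N E : ℤ, N < 0 → u N E = 0) {s : ℤ} (hs : 1 ≤ s) (h : ℝ)
    (N E : ℤ) : Summable fun a : ℕ => h ^ a * u (N - s * a) (E - s * a) :=
  summable_of_ne_finset_zero (s := Finset.range (N.toNat + 1))
    fun a ha => term_zero hu hs h N E a ha

theorem inv_eq {u : Arr} (hu : ∀ N E : ℤ, N < 0 → u N E = 0) {s : ℤ} (hs : 1 ≤ s) (h : ℝ)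
    (N E : ℤ) : Inv h s u N E - h * Inv h s u (N - s) (E - s) = u N E := by
  unfold Inv
  rw [(summ hu hs h N E).tsum_eq_zero_add, ← tsum_mul_left]
  have h1 : ∀ a : ℕ, h ^ (a + 1) * u (N - s * ((a + 1 : ℕ) : ℤ)) (E - s * ((a + 1 : ℕ) : ℤ)) =
      h * (h ^ a * u (N - s - s * a) (E - s - s * a)) := by
    intro a
    have e1 : N - s * ((a + 1 : ℕ) : ℤ) = N - s - s * a := by push_cast; ring
    have e2 : E - s * ((a + 1 : ℕ) : ℤ) = E - s - s * a := by push_cast; ring
    rw [e1, e2, pow_succ]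
    ring
  rw [tsum_congr h1]
  have e3 : N - s * ((0 : ℕ) : ℤ) = N := by push_cast; ring
  have e4 : E - s * ((0 : ℕ) : ℤ) = E := by push_cast; ring
  rw [e3, e4, pow_zero, one_mul]
  ring

theorem inv_ok {ε : ℝ} {u : Arr} (hu : Ok ε u) {s : ℤ} (hs : 1 ≤ s) (h : ℝ) :
    Ok ε (Inv h s u) := by
  have hsa : ∀ a : ℕ, 0 ≤ s * (a : ℤ) := fun a =>
    mul_nonneg (by linarith) (Int.natCast_nonneg a)
  constructor
  · intro N E hN
    unfold Inv
    have h1 : ∀ a : ℕ, h ^ a * u (N - s * a) (E - s * a) = 0 := by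
      intro a
      rw [hu.fn _ _ (by linarith [hsa a]), mul_zero]
    rw [tsum_congr h1, tsum_zero]
  · intro N E hN
    unfold Inv
    have h1 : ∀ a : ℕ, h ^ a * u (N - s * a) (E - s * a) = 0 := by
      intro a
      rw [hu.fs _ _ (by linarith [hsa a]), mul_zero]
    rw [tsum_congr h1, tsum_zero]
  · intro N E hN
    unfold Inv
    have h1 : ∀ a : ℕ, h ^ a * u (N - s * a) (E - s * a) = 0 := by
      intro a
      have h2 : (N - s * a + (E - s * a)) % 2 = 1 := by
        generalize s * (a : ℤ) = t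
        omega
      rw [hu.fp _ _ h2, mul_zero]
    rw [tsum_congr h1, tsum_zero]
  · intro N E
    unfold Inv
    rw [← tsum_mul_left]
    refine tsum_congr fun a => ?_
    have h1 := hu.tau (N - s * a) (E - s * a)
    have e1 : 2 * (N - s * a) - (E - s * a) = 2 * N - E - s * a := by ring
    have e2 : 3 * (N - s * a) - 2 * (E - s * a) = 3 * N - 2 * E - s * a := by ring
    have e3 : E - s * a - (N - s * a) = E - N := by ring
    rw [e1, e2, e3] at h1
    rw [h1]
    ring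

/-- symmetry of `(1 - k x^(s1, s2)) u` -/
def Sy (k : ℝ) (s1 s2 : ℤ) (u : Arr) : Prop :=
  ∀ N E : ℤ, u N E - k * u (N - s1) (E - s2) = u E N - k * u (E - s1) (N - s2)

theorem inv_sy {u : Arr} (hu : ∀ N E : ℤ, N < 0 → u N E = 0) {s : ℤ} (hs : 1 ≤ s) (h : ℝ)
    {k : ℝ} {s1 s2 : ℤ} (hy : Sy k s1 s2 u) : Sy k s1 s2 (Inv h s u) := by
  have key : ∀ N E : ℤ, Inv h s u N E - k * Inv h s u (N - s1) (E - s2) =
      ∑' a : ℕ, h ^ a * (u (N - s * a) (E - s * a) -
        k * u (N - s * a - s1) (E - s * a - s2)) := by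
    intro N E
    unfold Inv
    rw [← tsum_mul_left, ← (summ hu hs h N E).tsum_sub ((summ hu hs h _ _).mul_left k)]
    refine tsum_congr fun a => ?_
    have e1 : N - s1 - s * a = N - s * a - s1 := by ring
    have e2 : E - s2 - s * a = E - s * a - s2 := by ring
    rw [e1, e2]
    ring
  intro N E
  rw [key N E, key E N]
  refine tsum_congr fun a => ?_
  rw [hy (N - s * a) (E - s * a)]

/-- the right side of `Rl` -/
noncomputable def ww (ε g : ℝ) (m : ℤ) (f : Arr) : Arr := fun N E =>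
  f N E - g * f (N - m) (E - m + 2) - ε * g * f (N - m - 2) (E - m - 4) +
      ε * g ^ 2 * f (N - 2 * m - 2) (E - 2 * m - 2)

theorem ww_ok {ε g : ℝ} {m : ℤ} {f : Arr} (hε : ε = 1 ∨ ε = -1) (hm : 1 ≤ m) (hf : Ok ε f) :
    Ok ε (ww ε g m f) := by
  have hε0 : ε ≠ 0 := by
    rcases hε with h | h <;> rw [h] <;> norm_num
  have hε2 : ε * ε = 1 := by
    rcases hε with h | h <;> rw [h] <;> norm_num
  have hεi : ε⁻¹ = ε := inv_eq_of_mul_eq_one_left hε2
  constructor
  · intro N E hN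
    unfold ww
    rw [hf.fn N _ hN, hf.fn (N - m) _ (by linarith), hf.fn (N - m - 2) _ (by linarith),
      hf.fn (N - 2 * m - 2) _ (by linarith)]
    ring
  · intro N E hN
    unfold ww
    rw [hf.fs N _ hN, hf.fs (N - m) _ (by linarith), hf.fs (N - m - 2) _ (by linarith),
      hf.fs (N - 2 * m - 2) _ (by linarith)]
    ring
  · intro N E hN
    unfold ww
    rw [hf.fp N _ hN, hf.fp (N - m) _ (by omega), hf.fp (N - m - 2) _ (by omega),
      hf.fp (N - 2 * m - 2) _ (by omega)]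
    ring
  · intro N E
    unfold ww
    have t1 := hf.tau N E
    have t2 := hf.tau (N - m - 2) (E - m - 4)
    have t3 := hf.tau (N - m) (E - m + 2)
    have t4 := hf.tau (N - 2 * m - 2) (E - 2 * m - 2)
    have a2 : 2 * (N - m - 2) - (E - m - 4) = 2 * N - E - m := by ring
    have b2 : 3 * (N - m - 2) - 2 * (E - m - 4) = 3 * N - 2 * E - m + 2 := by ring
    have c2 : (E - m - 4 - (N - m - 2)) / 2 = (E - N) / 2 - 1 := by omega
    have a3 : 2 * (N - m) - (E - m + 2) = 2 * N - E - m - 2 := by ring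
    have b3 : 3 * (N - m) - 2 * (E - m + 2) = 3 * N - 2 * E - m - 4 := by ring
    have c3 : (E - m + 2 - (N - m)) / 2 = (E - N) / 2 + 1 := by omega
    have a4 : 2 * (N - 2 * m - 2) - (E - 2 * m - 2) = 2 * N - E - 2 * m - 2 := by ring
    have b4 : 3 * (N - 2 * m - 2) - 2 * (E - 2 * m - 2) = 3 * N - 2 * E - 2 * m - 2 := by ring
    have c4 : (E - 2 * m - 2 - (N - 2 * m - 2)) / 2 = (E - N) / 2 := by omega
    rw [a2, b2, c2, zpow_sub_one₀ hε0, hεi] at t2
    rw [a3, b3, c3, zpow_add_one₀ hε0] at t3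
    rw [a4, b4, c4] at t4
    rw [t1, t2, t3, t4]
    linear_combination (-(g * ε ^ ((E - N) / 2) * f (N - m) (E - m + 2))) * hε2

theorem ww_sy {ε g : ℝ} {m : ℤ} {f : Arr} (hε : ε = 1 ∨ ε = -1)
    (hs : ∀ N E : ℤ, f N E - g * f (N - m) (E - m + 2) = f E N - g * f (E - m) (N - m + 2)) :
    Sy (ε * g) (m + 4) (m + 2) (ww ε g m f) := by
  have hε2 : ε * ε = 1 := by
    rcases hε with h | h <;> rw [h] <;> norm_num
  have key : ∀ N E : ℤ, ww ε g m f N E - ε * g * ww ε g m f (N - (m + 4)) (E - (m + 2)) =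
      (f N E - g * f (N - m) (E - m + 2)) -
      ε * g * (f (N - m - 2) (E - m - 4) - g * f (N - m - 2 - m) (E - m - 4 - m + 2)) -
      ε * g * (f (N - m - 4) (E - m - 2) - g * f (N - m - 4 - m) (E - m - 2 - m + 2)) +
      g ^ 2 * (f (N - 2 * m - 6) (E - 2 * m - 6) -
        g * f (N - 2 * m - 6 - m) (E - 2 * m - 6 - m + 2)) := by
    intro N E
    unfold ww
    have e1 : N - m - 2 - m = N - 2 * m - 2 := by ring
    have e2 : E - m - 4 - m + 2 = E - 2 * m - 2 := by ring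
    have e3 : N - (m + 4) = N - m - 4 := by ring
    have e4 : E - (m + 2) = E - m - 2 := by ring
    have e5 : N - m - 4 - m - 2 = N - 2 * m - 6 := by ring
    have e6 : E - m - 2 - m - 4 = E - 2 * m - 6 := by ring
    have e7 : N - m - 4 - 2 * m - 2 = N - 2 * m - 6 - m := by ring
    have e8 : E - m - 2 - 2 * m - 2 = E - 2 * m - 6 - m + 2 := by ring
    rw [e1, e2, e3, e4, e5, e6, e7, e8]
    linear_combination (g ^ 2 * f (N - 2 * m - 6) (E - 2 * m - 6) -
      g ^ 3 * f (N - 2 * m - 6 - m) (E - 2 * m - 6 - m + 2)) * hε2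
  intro N E
  rw [key N E, key E N]
  have s1 := hs N E
  have s2 := hs (N - m - 2) (E - m - 4)
  have s3 := hs (N - m - 4) (E - m - 2)
  have s4 := hs (N - 2 * m - 6) (E - 2 * m - 6)
  linear_combination s1 - ε * g * s2 - ε * g * s3 + g ^ 2 * s4

theorem top {ε : ℝ} (hε : ε = 1 ∨ ε = -1) {f : Arr} (hf : Ok ε f) (N E : ℤ) (h : 2 * N < E) :
    f N E = 0 := by
  have hε0 : ε ≠ 0 := by
    rcases hε with h | h <;> rw [h] <;> norm_num
  have h1 := hf.tau N E
  rw [hf.fn (2 * N - E) _ (by linarith)] at h1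
  have h2 : ε ^ ((E - N) / 2) ≠ 0 := zpow_ne_zero _ hε0
  exact (mul_eq_zero.1 h1.symm).resolve_left h2

theorem row {ε : ℝ} (hε : ε = 1 ∨ ε = -1) {f : Arr} (hf : Ok ε f) (N : ℤ) :
    HasSum (fun E : ℤ => f N E) (∑ E ∈ Finset.Icc (-N) (2 * N), f N E) := by
  refine hasSum_sum_of_ne_finset_zero fun E hE => ?_
  rw [Finset.mem_Icc, not_and_or, not_le, not_le] at hE
  rcases hE with h | h
  · exact hf.fs N E h
  · exact top hε hf N E h

theorem row_shift {ε : ℝ} (hε : ε = 1 ∨ ε = -1) {f : Arr} (hf : Ok ε f) (N b : ℤ) :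
    HasSum (fun E : ℤ => f N (E - b)) (∑ E ∈ Finset.Icc (-N) (2 * N), f N E) :=
  (Equiv.subRight b).hasSum_iff.2 (row hε hf N)

theorem nor_step {ε g : ℝ} {m : ℤ} {f f' : Arr} (hε : ε = 1 ∨ ε = -1) (hm : 1 ≤ m)
    (hf : Ok ε f) (hf' : Ok ε f') (hR : Rl ε g m f f')
    (hn : ∀ N : ℤ, ∑ E ∈ Finset.Icc (-N) (2 * N), f N E = if N = 0 then 1 else 0) :
    ∀ N : ℤ, ∑ E ∈ Finset.Icc (-N) (2 * N), f' N E = if N = 0 then 1 else 0 := by
  -- the recurrence for the row sums
  have hrec : ∀ N : ℤ,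
      (∑ E ∈ Finset.Icc (-N) (2 * N), f' N E) -
      g * (∑ E ∈ Finset.Icc (-(N - m)) (2 * (N - m)), f' (N - m) E) -
      ε * g * (∑ E ∈ Finset.Icc (-(N - m - 2)) (2 * (N - m - 2)), f' (N - m - 2) E) +
      ε * g ^ 2 *
        (∑ E ∈ Finset.Icc (-(N - 2 * m - 2)) (2 * (N - 2 * m - 2)), f' (N - 2 * m - 2) E) =
      (∑ E ∈ Finset.Icc (-N) (2 * N), f N E) -
      g * (∑ E ∈ Finset.Icc (-(N - m)) (2 * (N - m)), f (N - m) E) -
      ε * g * (∑ E ∈ Finset.Icc (-(N - m - 2)) (2 * (N - m - 2)), f (N - m - 2) E) +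
      ε * g ^ 2 *
        (∑ E ∈ Finset.Icc (-(N - 2 * m - 2)) (2 * (N - 2 * m - 2)), f (N - 2 * m - 2) E) := by
    intro N
    have h1 := (((row hε hf' N).sub ((row_shift hε hf' (N - m) m).mul_left g)).sub
      ((row_shift hε hf' (N - m - 2) (m + 2)).mul_left (ε * g))).add
      ((row_shift hε hf' (N - 2 * m - 2) (2 * m + 2)).mul_left (ε * g ^ 2))
    have h2 := (((row hε hf N).sub ((row_shift hε hf (N - m) (m - 2)).mul_left g)).sub
      ((row_shift hε hf (N - m - 2) (m + 4)).mul_left (ε * g))).add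
      ((row_shift hε hf (N - 2 * m - 2) (2 * m + 2)).mul_left (ε * g ^ 2))
    refine h1.unique ?_
    have h3 : (fun E : ℤ => f' N E - g * f' (N - m) (E - m) -
        ε * g * f' (N - m - 2) (E - (m + 2)) +
        ε * g ^ 2 * f' (N - 2 * m - 2) (E - (2 * m + 2))) =
        fun E : ℤ => f N E - g * f (N - m) (E - (m - 2)) - ε * g * f (N - m - 2) (E - (m + 4)) +
        ε * g ^ 2 * f (N - 2 * m - 2) (E - (2 * m + 2)) := by
      funext E
      have h4 := hR N E
      have e1 : E - (m + 2) = E - m - 2 := by ring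
      have e2 : E - (2 * m + 2) = E - 2 * m - 2 := by ring
      have e3 : E - (m - 2) = E - m + 2 := by ring
      have e4 : E - (m + 4) = E - m - 4 := by ring
      rw [e1, e2, e3, e4]
      exact h4
    rw [h3]
    exact h2
  -- negative rows
  have hneg : ∀ {u : Arr}, Ok ε u → ∀ N : ℤ, N < 0 →
      ∑ E ∈ Finset.Icc (-N) (2 * N), u N E = 0 := by
    intro u hu N hN
    exact Finset.sum_eq_zero fun E _ => hu.fn N E hN
  have hind : ∀ n : ℕ, ∀ N : ℤ, N < n →
      (∑ E ∈ Finset.Icc (-N) (2 * N), f' N E) = ∑ E ∈ Finset.Icc (-N) (2 * N), f N E := by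
    intro n
    induction n with
    | zero =>
      intro N hN
      have hN' : N < 0 := by exact_mod_cast hN
      rw [hneg hf' N hN', hneg hf N hN']
    | succ n ih =>
      intro N hN
      push_cast at hN
      have h1 := hrec N
      rw [ih (N - m) (by linarith), ih (N - m - 2) (by linarith),
        ih (N - 2 * m - 2) (by linarith)] at h1
      linarith
  intro N
  rw [← hn N]
  have h1 : N < ((N.toNat + 1 : ℕ) : ℤ) := by
    have := Int.self_le_toNat N
    push_cast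
    linarith
  exact hind _ N h1

end LV1

open LV1 in
theorem t_lv1 : Pool.Agent.H525.EX.S_lv1 := by
  intro ε g m f hε hm _ hf
  have hf0 : Ok ε f := ⟨hf.fn, hf.fs, hf.fp, hf.tau⟩
  have hw := ww_ok (g := g) hε hm hf0
  have hwy := ww_sy (ε := ε) (g := g) (m := m) hε hf.sym
  have hv := inv_ok hw hm g
  have hvy := inv_sy hw.fn hm g hwy
  have hm2 : 1 ≤ m + 2 := by linarith
  have hf' := inv_ok hv hm2 (ε * g)
  have hfy := inv_sy hv.fn hm2 (ε * g) hvy
  have hR : Rl ε g m f (Inv (ε * g) (m + 2) (Inv g m (ww ε g m f))) := by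
    intro N E
    have h1 := inv_eq hv.fn hm2 (ε * g) N E
    have h2 := inv_eq hv.fn hm2 (ε * g) (N - m) (E - m)
    have h3 := inv_eq hw.fn hm g N E
    have e1 : N - (m + 2) = N - m - 2 := by ring
    have e2 : E - (m + 2) = E - m - 2 := by ring
    have e3 : N - m - (m + 2) = N - 2 * m - 2 := by ring
    have e4 : E - m - (m + 2) = E - 2 * m - 2 := by ring
    rw [e1, e2] at h1
    rw [e3, e4] at h2
    have h4 : ww ε g m f N E = f N E - g * f (N - m) (E - m + 2) -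
      ε * g * f (N - m - 2) (E - m - 4) + ε * g ^ 2 * f (N - 2 * m - 2) (E - 2 * m - 2) := rfl
    rw [h4] at h3
    linear_combination h1 - g * h2 + h3
  refine ⟨Inv (ε * g) (m + 2) (Inv g m (ww ε g m f)),
    ⟨hf'.fn, hf'.fs, hf'.fp, hf'.tau, ?_, nor_step hε hm hf0 hf' hR hf.nor⟩, hR⟩
  intro N E
  have h1 := hfy N E
  have e1 : E - (m + 4) + 2 = E - (m + 2) := by ring
  have e2 : N - (m + 4) + 2 = N - (m + 2) := by ring
  rw [e1, e2]
  exact h1

end Pool.Agent.H734.EX
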